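import Pool.Agent.H37.CND.Stmts

/-!
# Row VEC of the board `cnd` (MP_b57703): orders of combinations with distinct residues
-/

set_option autoImplicit false

namespace Pool.CND

open Finset

theorem vec_thm : S_VEC := by
  classical
  intro k L ι _ _ _ _ P n e c hn he hres hc hex
  obtain ⟨j0, hj0⟩ := hex
  obtain ⟨i0, hi0, hmin⟩ := Finset.exists_min_image (univ.filter (fun i => c i ≠ 0))
    (fun i => P.ord (c i * e i)) ⟨j0, by simpa using hj0⟩
  have hci0 : c i0 ≠ 0 := by simpa using hi0
  have hmin' : ∀ i, c i ≠ 0 → P.ord (c i0 * e i0) ≤ P.ord (c i * e i) := by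
    intro i hi
    exact hmin i (by simpa using hi)
  have hne : ∀ i, i ≠ i0 → c i ≠ 0 → P.ord (c i * e i) ≠ P.ord (c i0 * e i0) := by
    intro i hi hci h
    rw [P.ord_mul _ _ hci (he i), P.ord_mul _ _ hci0 (he i0)] at h
    have h1 := (hc i).resolve_left hci
    have h2 := (hc i0).resolve_left hci0
    apply hres i i0 hi
    have h3 : P.ord (e i) - P.ord (e i0) = P.ord (c i0) - P.ord (c i) := by linarith
    rw [h3]
    exact dvd_sub h2 h1
  have hrest : P.Ge (∑ i ∈ univ.erase i0, c i * e i) (P.ord (c i0 * e i0) + 1) := by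
    apply P.ge_sum
    intro i hi
    have hi' : i ≠ i0 := (Finset.mem_erase.1 hi).1
    by_cases hci : c i = 0
    · exact Or.inl (by rw [hci, zero_mul])
    · right
      have h1 := hmin' i hci
      have h2 := hne i hi' hci
      omega
  have h0 : c i0 * e i0 ≠ 0 := mul_ne_zero hci0 (he i0)
  have h := P.ord_add_of_lt h0 hrest
  rw [Finset.add_sum_erase univ (fun i => c i * e i) (mem_univ i0)] at h
  exact ⟨h.1, i0, hci0, h.2, hmin'⟩

end Pool.CND
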