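import Pool.Agent.H37.CND.Stmts

/-!
# Row WPG of the board `cnd` (MP_b57703)

If `h ∈ ram 1` and `h ^ m = 1` with `p ∤ m`, put `δ = h π - π`; then `0 = h ^ m π - π =
∑_{l < m} h ^ l δ = m δ + Ge (ord δ + 1)`, so `δ = 0` and `h = 1`.
-/

set_option autoImplicit false

namespace Pool.CND

open Finset

theorem wpg_ge {k L G : Type} [Field k] [Field L] [Algebra k L] [Group G] {P : Place k L}
    {ρ : G →* (L ≃ₐ[k] L)} {g : G} (hg : g ∈ ram P ρ 1) {u : L} (hu : u ≠ 0) (h1 : P.ord u = 1) :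
    P.Ge (ρ g u - u) 2 := by
  rcases hg.2 u hu h1 with h | h
  · exact Or.inl (by rw [h, sub_self])
  · exact Or.inr (by simpa using h)

theorem wpg_pow {k L G : Type} [Field k] [Field L] [Algebra k L] [Group G] {P : Place k L}
    {ρ : G →* (L ≃ₐ[k] L)} {g : G} (hg : g ∈ ram P ρ 1) (n : ℕ) : g ^ n ∈ ram P ρ 1 := by
  induction n with
  | zero =>
    refine ⟨?_, ?_⟩
    · rw [pow_zero, map_one]; exact Fixes.one
    · intro u _ _
      left
      rw [pow_zero, map_one, AlgEquiv.one_apply]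
  | succ n ih =>
    refine ⟨?_, ?_⟩
    · rw [pow_succ, map_mul]; exact ih.1.mul hg.1
    · intro u hu h1
      have e1 : P.Ge (ρ g u - u) 2 := wpg_ge hg hu h1
      have e2 : P.Ge (ρ (g ^ n) (ρ g u) - ρ g u) 2 :=
        wpg_ge ih (by simpa using hu) (by rw [hg.1 u hu, h1])
      have e3 := P.ge_add e2 e1
      rw [sub_add_sub_cancel, ← AlgEquiv.mul_apply, ← map_mul, ← pow_succ] at e3
      rcases e3 with e3 | e3
      · left; exact sub_eq_zero.1 e3
      · right; simpa using e3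

theorem wpg_thm (hLON : S_LON) : S_WPG := by
  intro p k L G _ _ _ _ _ P ρ hp hch hinj g hg
  obtain ⟨r, m, hm, hN⟩ :=
    Nat.exists_eq_pow_mul_and_not_dvd (orderOf_pos g).ne' p hp.ne_one
  refine ⟨r, ?_⟩
  have hh : g ^ (p ^ r) ∈ ram P ρ 1 := wpg_pow hg _
  have hhm : (g ^ (p ^ r)) ^ m = 1 := by
    rw [← pow_mul, ← hN]; exact pow_orderOf_eq_one g
  generalize g ^ (p ^ r) = h at hh hhm
  -- the displacement of the uniformiser
  have hδ : ρ h P.pi = P.pi := by
    by_contra hne
    have hδ0 : ρ h P.pi - P.pi ≠ 0 := sub_ne_zero.2 hne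
    have hstep : ∀ l : ℕ, P.Ge (ρ (h ^ l) (ρ h P.pi - P.pi) - (ρ h P.pi - P.pi))
        (P.ord (ρ h P.pi - P.pi) + 1) := by
      intro l
      have hl := wpg_pow hh l
      rcases hLON k L P (ρ (h ^ l)) P.pi 1 hl.1 P.pi_ne P.ord_pi (by norm_num)
        (wpg_ge hl P.pi_ne P.ord_pi) (ρ h P.pi - P.pi) with h1 | h1
      · exact h1
      · exact absurd h1 hδ0
    have htel : ∀ n : ℕ, ρ (h ^ n) P.pi - P.pi
        = ∑ l ∈ range n, ρ (h ^ l) (ρ h P.pi - P.pi) := by
      intro n
      induction n with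
      | zero => simp
      | succ n ih =>
        rw [sum_range_succ, ← ih, map_sub, ← AlgEquiv.mul_apply, ← map_mul, ← pow_succ]
        ring
    have h0 := htel m
    rw [hhm, map_one, AlgEquiv.one_apply, sub_self] at h0
    have hsum : P.Ge (∑ l ∈ range m, (ρ (h ^ l) (ρ h P.pi - P.pi) - (ρ h P.pi - P.pi)))
        (P.ord (ρ h P.pi - P.pi) + 1) := P.ge_sum _ _ _ (fun l _ => hstep l)
    rw [sum_sub_distrib, ← h0, sum_const, card_range, nsmul_eq_mul, zero_sub] at hsum
    have hmk : (m : k) ≠ 0 := by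
      intro h1
      exact hm ((CharP.cast_eq_zero_iff k p m).1 h1)
    have hmL : (m : L) ≠ 0 := by
      have : (m : L) = algebraMap k L (m : k) := by rw [map_natCast]
      rw [this]
      exact (map_ne_zero _).2 hmk
    have hord : P.ord ((m : L) * (ρ h P.pi - P.pi)) = P.ord (ρ h P.pi - P.pi) := by
      rw [P.ord_mul _ _ hmL hδ0]
      have : (m : L) = algebraMap k L (m : k) := by rw [map_natCast]
      rw [this, P.ord_const _ hmk, zero_add]
    rcases P.ge_neg hsum with h1 | h1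
    · rw [neg_neg] at h1
      exact (mul_ne_zero hmL hδ0) h1
    · rw [neg_neg, hord] at h1
      omega
  -- then `ρ h = 1`
  have h1 : ρ h = 1 := by
    apply AlgEquiv.ext
    intro x
    rw [AlgEquiv.one_apply]
    by_contra hne
    have hx0 : ρ h x - x ≠ 0 := sub_ne_zero.2 hne
    have hx : x ≠ 0 := by
      rintro rfl
      exact hne (map_zero _)
    have := hLON k L P (ρ h) P.pi (max 0 (P.ord (ρ h x - x) - P.ord x + 1)) hh.1 P.pi_ne P.ord_pi
      (le_max_left _ _) (Or.inl (by rw [hδ, sub_self])) x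
    rcases this with h2 | h2
    · have h3 := h2.resolve_left hx0
      have h4 := le_max_right 0 (P.ord (ρ h x - x) - P.ord x + 1)
      omega
    · exact hx h2
  exact hinj (by rw [h1, map_one])

end Pool.CND
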